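import Pool.Agent.Y496.KC.Exp
import Pool.Agent.Y192.KC.PStm

/-!
Entire curves from punctured discs, in covers of arbitrary quasi-projective varieties (helper961,
job KP3 of helper192).
-/

set_option autoImplicit false

namespace Pool.Agent.Y961.KP

open MvPolynomial Metric Filter Topology
open Pool.Agent.Y192.KC Pool.Agent.Y496.KC

/-- a cover with given weights -/
noncomputable def dum {n r : ℕ} (X : Proj n r) : Cov n r where
  F := fun j => MvPolynomial.X 0 ^ X.d j
  d := X.d
  e := X.e
  G := 1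
  q := 0
  hF := fun j => by
    have h := (isHomogeneous_X ℂ (0 : Fin (n + 1))).pow (X.d j)
    rwa [one_mul] at h
  hF0 := fun j => pow_ne_zero _ (X_ne_zero 0)
  he := X.he
  hG := isHomogeneous_one _ _
  hG0 := one_ne_zero

theorem same_iff {n r : ℕ} (X : Proj n r) (m : ℕ) (u : Fin (n + 1) → ℂ) (v : Fin r → ℂ)
    (u' : Fin (n + 1) → ℂ) (v' : Fin r → ℂ) : X.Same m u v u' v' ↔ Same (dum X) m u v u' v' :=
  Iff.rfl

/-- entire curves from punctured discs -/
theorem t_gmE : St_gmD → St_gmE := by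
  intro hD n r X
  obtain ⟨m0, hm0⟩ := hD n r X
  refine ⟨m0, fun m hm he u v hE => ?_⟩
  have hne : ∀ z, u z ≠ 0 := fun z => (hE.mem z).1.1
  have hcu := hE.diffu.continuous
  have hcv := hE.diffv.continuous
  have hexp : DifferentiableOn ℂ (fun z : ℂ => Complex.exp z⁻¹) (ball 0 1 \ {0}) := by
    intro z hz
    exact ((differentiableAt_inv hz.2).cexp).differentiableWithinAt
  have hDi : X.Disc m (fun z => u (Complex.exp z⁻¹)) (fun z => v (Complex.exp z⁻¹)) :=
    { diffu := hE.diffu.comp_differentiableOn hexp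
      diffv := hE.diffv.comp_differentiableOn hexp
      mem := fun z _ => hE.mem _ }
  rcases hm0 m hm he _ _ hDi with hext | hct
  · exfalso
    obtain ⟨ρ, hρ, u', v', hu', hv', h0, hs⟩ := hext
    have hmem : (0 : ℂ) ∈ ball (0 : ℂ) ρ := mem_ball_self hρ
    have hcu' : ContinuousAt u' 0 :=
      (hu'.continuousOn).continuousAt (isOpen_ball.mem_nhds hmem)
    have hcv' : ContinuousAt v' 0 :=
      (hv'.continuousOn).continuousAt (isOpen_ball.mem_nhds hmem)
    obtain ⟨z, z', hzz⟩ := hE.nonconst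
    exact hzz (const_of (X := dum X.toProj) hcu hcv hne (h0 0 hmem)
      (same_of_extends hne hρ hcu' hcv' (h0 0 hmem) hs) z z')
  · refine ((hct.image (fun z => Complex.exp z⁻¹)).union (Set.countable_singleton 0)).mono ?_
    intro y hy
    by_cases hy0 : y = 0
    · exact Or.inr hy0
    · left
      have h1 : ∀ᶠ k in atTop, zk (Complex.log y) k ∈ ball (0 : ℂ) 1 :=
        (zk_tendsto _).eventually (ball_mem_nhds _ one_pos)
      obtain ⟨k, hk1, hk2⟩ := (h1.and (zk_ev_ne (Complex.log y))).exists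
      have h2 : Complex.exp (zk (Complex.log y) k)⁻¹ = y := by
        rw [exp_zk, Complex.exp_log hy0]
      refine ⟨zk (Complex.log y) k, ⟨⟨hk1, hk2⟩, ?_⟩, h2⟩
      rw [h2]
      exact hy

end Pool.Agent.Y961.KP
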